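import Mathlib

set_option autoImplicit false

/-! Graph containers (Kleitman–Winston) and random subsets of a finite set. -/

namespace Pool.Agent.R535.SP

open Finset

variable {V : Type} [Fintype V] [DecidableEq V]

/-- containers for the sets without related pairs -/
theorem containers (r : V → V → Prop) [DecidableRel r] {m₀ D : ℝ} (hD : 0 ≤ D) 
    (H : ∀ W : Finset V, m₀ < W.card → ∃ v ∈ W, D ≤ ((W.filter fun w => r v w).card : ℝ)) :
    ∀ (n : ℕ) (U : Finset V), U.card ≤ n → ∃ F : Finset V → Finset V,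
      (∀ T, ((F T).card : ℝ) ≤ max m₀ 0) ∧
      ∀ S ⊆ U, (∀ a ∈ S, ∀ b ∈ S, ¬ r a b) →
        ∃ T ⊆ S, (T.card : ℝ) * D ≤ U.card ∧ S ⊆ T ∪ F T := by
  intro n
  have base : ∀ U : Finset V, ¬ (m₀ < U.card) → ∃ F : Finset V → Finset V,
      (∀ T, ((F T).card : ℝ) ≤ max m₀ 0) ∧
      ∀ S ⊆ U, (∀ a ∈ S, ∀ b ∈ S, ¬ r a b) →
        ∃ T ⊆ S, (T.card : ℝ) * D ≤ U.card ∧ S ⊆ T ∪ F T := by
    intro U hU
    refine ⟨fun _ => U, fun _ => (not_lt.1 hU).trans (le_max_left _ _), fun S hS _ => ?_⟩
    exact ⟨∅, empty_subset _, by simp, by simpa using hS⟩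
  induction n with
  | zero =>
    intro U hU
    refine ⟨fun _ => ∅, fun _ => by simp, fun S hS _ => ?_⟩
    have : U = ∅ := card_eq_zero.1 (by omega)
    subst this
    have : S = ∅ := subset_empty.1 hS
    subst this
    exact ⟨∅, by simp, by simp, by simp⟩
  | succ n ih =>
    intro U hU
    by_cases hm : m₀ < U.card
    swap
    · exact base U hm
    obtain ⟨v, hv, hdeg⟩ := H U hm
    set Nb := U.filter fun w => r v w with hNb
    set U₁ := U.erase v with hU₁
    set U₂ := (U \ Nb).erase v with hU₂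
    have c1 : U₁.card ≤ n := by
      rw [hU₁, card_erase_of_mem hv]
      omega
    have c2 : U₂.card ≤ n := by
      refine (card_le_card ?_).trans c1
      exact erase_subset_erase _ sdiff_subset
    have c3 : (U₂.card : ℝ) + D ≤ U.card := by
      have e1 : U₂.card ≤ (U \ Nb).card := card_le_card (erase_subset _ _)
      have e2 : (U \ Nb).card + Nb.card = U.card := card_sdiff_add_card_eq_card (filter_subset _ _)
      have e3 : (U₂.card : ℝ) ≤ ((U \ Nb).card : ℝ) := by exact_mod_cast e1
      have e4 : ((U \ Nb).card : ℝ) + (Nb.card : ℝ) = (U.card : ℝ) := by exact_mod_cast e2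
      linarith
    obtain ⟨F₁, hF₁, hS₁⟩ := ih U₁ c1
    obtain ⟨F₂, hF₂, hS₂⟩ := ih U₂ c2
    refine ⟨fun T => if v ∈ T then F₂ (T.erase v) else F₁ T, fun T => ?_, fun S hS hi => ?_⟩
    · show (((if v ∈ T then F₂ (T.erase v) else F₁ T : Finset V)).card : ℝ) ≤ _
      split_ifs
      · exact hF₂ _
      · exact hF₁ _
    · by_cases hvS : v ∈ S
      · have hsub : S.erase v ⊆ U₂ := by
          intro x hx
          have hx' := mem_erase.1 hx
          refine mem_erase.2 ⟨hx'.1, mem_sdiff.2 ⟨hS hx'.2, fun hN => ?_⟩⟩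
          exact hi v hvS x hx'.2 (mem_filter.1 hN).2
        obtain ⟨T, hT, hTc, hST⟩ := hS₂ (S.erase v) hsub
          fun a ha b hb => hi a (mem_of_mem_erase ha) b (mem_of_mem_erase hb)
        have hvT : v ∉ T := fun h => (mem_erase.1 (hT h)).1 rfl
        refine ⟨insert v T, ?_, ?_, ?_⟩
        · intro x hx
          rcases mem_insert.1 hx with rfl | hx
          · exact hvS
          · exact mem_of_mem_erase (hT hx)
        · rw [card_insert_of_notMem hvT]
          push_cast
          nlinarith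
        · show S ⊆ insert v T ∪ (if v ∈ insert v T then F₂ ((insert v T).erase v) else F₁ (insert v T))
          rw [if_pos (mem_insert_self _ _), erase_insert hvT]
          intro x hx
          by_cases hxv : x = v
          · subst hxv
            exact mem_union_left _ (mem_insert_self _ _)
          · rcases mem_union.1 (hST (mem_erase.2 ⟨hxv, hx⟩)) with h | h
            · exact mem_union_left _ (mem_insert_of_mem h)
            · exact mem_union_right _ h
      · have hsub : S ⊆ U₁ := fun x hx => mem_erase.2 ⟨fun h => hvS (h ▸ hx), hS hx⟩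
        obtain ⟨T, hT, hTc, hST⟩ := hS₁ S hsub hi
        have hvT : v ∉ T := fun h => hvS (hT h)
        refine ⟨T, hT, hTc.trans ?_, ?_⟩
        · exact_mod_cast card_le_card (erase_subset _ _)
        · show S ⊆ T ∪ (if v ∈ T then F₂ (T.erase v) else F₁ T)
          rw [if_neg hvT]
          exact hST

/-- all the sets at once -/
theorem containers_univ (r : V → V → Prop) [DecidableRel r] {m₀ D : ℝ} (hD : 0 ≤ D) (hm : 0 ≤ m₀)
    (H : ∀ W : Finset V, m₀ < W.card → ∃ v ∈ W, D ≤ ((W.filter fun w => r v w).card : ℝ)) :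
    ∃ F : Finset V → Finset V, (∀ T, ((F T).card : ℝ) ≤ m₀) ∧
      ∀ S : Finset V, (∀ a ∈ S, ∀ b ∈ S, ¬ r a b) →
        ∃ T ⊆ S, (T.card : ℝ) * D ≤ Fintype.card V ∧ S ⊆ T ∪ F T := by
  obtain ⟨F, h1, h2⟩ := containers r hD H _ univ le_rfl
  refine ⟨F, fun T => (h1 T).trans (by rw [max_eq_left hm]), fun S hS => ?_⟩
  obtain ⟨T, hT, hc, hST⟩ := h2 S (subset_univ _) hS
  exact ⟨T, hT, by simpa using hc, hST⟩

/-- the number (weighted) of small sets -/
theorem sum_small {q x t : ℝ} (hq : 0 ≤ q) (hx : 0 < x) (hx1 : x ≤ 1) :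
    ∑ T ∈ (univ : Finset (Finset V)).filter (fun T => (T.card : ℝ) ≤ t), q ^ T.card ≤
      Real.exp (t * Real.log (1 / x) + q * x * Fintype.card V) := by
  have hlog : 0 ≤ Real.log (1 / x) := Real.log_nonneg (by rw [le_div_iff₀ hx]; linarith)
  have h1 : ∀ T ∈ (univ : Finset (Finset V)).filter (fun T => (T.card : ℝ) ≤ t),
      q ^ T.card ≤ Real.exp (t * Real.log (1 / x)) * ((q * x) ^ T.card * 1 ^ (Fintype.card V - T.card)) := by
    intro T hT
    have ht := (mem_filter.1 hT).2
    rw [one_pow, mul_one, mul_pow]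
    have h2 : 1 ≤ Real.exp (t * Real.log (1 / x)) * x ^ T.card := by
      have e1 : x ^ T.card = Real.exp (-(T.card * Real.log (1 / x))) := by
        rw [Real.log_div one_ne_zero hx.ne', Real.log_one, zero_sub, mul_neg, neg_neg,
          Real.exp_nat_mul, Real.exp_log hx]
      rw [e1, ← Real.exp_add]
      apply Real.one_le_exp
      nlinarith
    calc q ^ T.card ≤ q ^ T.card * (Real.exp (t * Real.log (1 / x)) * x ^ T.card) :=
          le_mul_of_one_le_right (by positivity) h2
      _ = _ := by ring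
  refine (sum_le_sum h1).trans ?_
  rw [← mul_sum, Real.exp_add]
  apply mul_le_mul_of_nonneg_left _ (Real.exp_nonneg _)
  have h3 : ∑ T ∈ (univ : Finset (Finset V)).filter (fun T => (T.card : ℝ) ≤ t),
      ((q * x) ^ T.card * 1 ^ (Fintype.card V - T.card)) ≤
      ∑ T : Finset V, ((q * x) ^ T.card * 1 ^ (Fintype.card V - T.card)) := by
    apply sum_le_sum_of_subset_of_nonneg (filter_subset _ _)
    intro T _ _
    positivity
  refine h3.trans ?_
  rw [Fintype.sum_pow_mul_eq_add_pow]
  calc (q * x + 1) ^ Fintype.card V ≤ (Real.exp (q * x)) ^ Fintype.card V := by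
        apply pow_le_pow_left₀ (by positivity) (Real.add_one_le_exp _)
    _ = Real.exp (q * x * Fintype.card V) := by
        rw [← Real.exp_nat_mul]
        ring_nf

/-- the probability that a random subset of `V` (each element is taken independently with
probability `p`) has the property `Q` -/
noncomputable def rp (p : ℝ) (Q : Finset V → Prop) : ℝ := by
  classical
  exact ∑ R ∈ univ.filter (fun R => Q R), p ^ R.card * (1 - p) ^ (Fintype.card V - R.card)

open Classical in
theorem rp_eq (p : ℝ) (Q : Finset V → Prop) : rp p Q =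
    ∑ R ∈ univ.filter (fun R => Q R), p ^ R.card * (1 - p) ^ (Fintype.card V - R.card) := rfl

theorem wt_nonneg {p : ℝ} (hp0 : 0 ≤ p) (hp1 : p ≤ 1) (R : Finset V) :
    0 ≤ p ^ R.card * (1 - p) ^ (Fintype.card V - R.card) := by
  have : 0 ≤ 1 - p := by linarith
  positivity

theorem rp_mono {p : ℝ} (hp0 : 0 ≤ p) (hp1 : p ≤ 1) {Q Q' : Finset V → Prop}
    (h : ∀ R, Q R → Q' R) : rp p Q ≤ rp p Q' := by
  classical
  rw [rp_eq, rp_eq]
  apply sum_le_sum_of_subset_of_nonneg
  · intro R hR
    rw [mem_filter] at hR ⊢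
    exact ⟨hR.1, h R hR.2⟩
  · intro R _ _
    exact wt_nonneg hp0 hp1 R

theorem rp_union {p : ℝ} (hp0 : 0 ≤ p) (hp1 : p ≤ 1) {ι : Type} (s : Finset ι)
    (Q : ι → Finset V → Prop) :
    rp p (fun R => ∃ i ∈ s, Q i R) ≤ ∑ i ∈ s, rp p (Q i) := by
  classical
  simp only [rp_eq, sum_filter]
  rw [sum_comm]
  apply sum_le_sum
  intro R _
  have h0 := wt_nonneg hp0 hp1 R
  split_ifs with h
  · obtain ⟨i, hi, hQ⟩ := h
    calc p ^ R.card * (1 - p) ^ (Fintype.card V - R.card) =
          (if Q i R then p ^ R.card * (1 - p) ^ (Fintype.card V - R.card) else 0) := by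
          rw [if_pos hQ]
      _ ≤ _ := single_le_sum (f := fun i => if Q i R then
          p ^ R.card * (1 - p) ^ (Fintype.card V - R.card) else 0)
          (fun j _ => by split_ifs <;> [exact h0; exact le_rfl]) hi
  · exact sum_nonneg fun j _ => by split_ifs <;> [exact h0; exact le_rfl]

/-- exponential moment on the event that `R` contains `T` -/
theorem moment (T C : Finset V) (hTC : Disjoint T C) (p y : ℝ) :
    ∑ R : Finset V, (if T ⊆ R then
      p ^ R.card * (1 - p) ^ (Fintype.card V - R.card) * y ^ (R ∩ C).card else 0) =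
      p ^ T.card * (1 + p * (y - 1)) ^ C.card := by
  classical
  have h1 := Finset.prod_add (fun i : V => if i ∈ C then p * y else p)
    (fun i => if i ∈ T then (0 : ℝ) else 1 - p) univ
  have h2 : ∀ R ∈ (univ : Finset V).powerset, (∏ i ∈ R, if i ∈ C then p * y else p) *
      ∏ i ∈ univ \ R, (if i ∈ T then (0 : ℝ) else 1 - p) =
      if T ⊆ R then
      p ^ R.card * (1 - p) ^ (Fintype.card V - R.card) * y ^ (R ∩ C).card else 0 := by
    intro R _
    split_ifs with hT
    · have h3 : (∏ i ∈ R, if i ∈ C then p * y else p) = p ^ R.card * y ^ (R ∩ C).card := by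
        have h4 : ∀ i ∈ R, (if i ∈ C then p * y else p) = p * (if i ∈ C then y else 1) := by
          intro i _
          split_ifs <;> ring
        rw [prod_congr rfl h4, prod_mul_distrib, prod_const, ← prod_filter, prod_const,
          filter_mem_eq_inter]
      have h5 : ∏ i ∈ univ \ R, (if i ∈ T then (0 : ℝ) else 1 - p) =
          (1 - p) ^ (Fintype.card V - R.card) := by
        rw [prod_congr rfl (g := fun _ => (1 - p)), prod_const, card_sdiff_of_subset (subset_univ _),
          card_univ]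
        intro i hi
        rw [if_neg]
        exact fun h => (mem_sdiff.1 hi).2 (hT h)
      rw [h3, h5]
      ring
    · rw [not_subset] at hT
      obtain ⟨i, hi, hiR⟩ := hT
      have : ∏ i ∈ univ \ R, (if i ∈ T then (0 : ℝ) else 1 - p) = 0 :=
        prod_eq_zero (mem_sdiff.2 ⟨mem_univ i, hiR⟩) (if_pos hi)
      rw [this, mul_zero]
  rw [sum_congr rfl h2, powerset_univ] at h1
  rw [← h1]
  have h5 : ∀ i ∈ (univ : Finset V), ((if i ∈ C then p * y else p) +
      (if i ∈ T then (0 : ℝ) else 1 - p)) =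
      (if i ∈ T then p else 1) * (if i ∈ C then (1 + p * (y - 1)) else 1) := by
    intro i _
    by_cases hi : i ∈ T
    · have : i ∉ C := fun h => (disjoint_left.1 hTC) hi h
      simp [hi, this]
    · by_cases hc : i ∈ C
      · simp [hi, hc]
        ring
      · simp [hi, hc]
  rw [prod_congr rfl h5, prod_mul_distrib, ← prod_filter, ← prod_filter, prod_const, prod_const,
    filter_mem_eq_inter, filter_mem_eq_inter, univ_inter, univ_inter]

/-- upper tail together with `T ⊆ R` -/
theorem tail (T C : Finset V) (hTC : Disjoint T C) {p l a : ℝ} (hp0 : 0 ≤ p) (hp1 : p ≤ 1)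
    (hl : 0 ≤ l) (hl1 : l ≤ 1) :
    rp p (fun R => T ⊆ R ∧ a ≤ ((R ∩ C).card : ℝ)) ≤
      p ^ T.card * Real.exp (p * (l + l ^ 2) * C.card - l * a) := by
  classical
  have key : rp p (fun R => T ⊆ R ∧ a ≤ ((R ∩ C).card : ℝ)) =
      ∑ R : Finset V, (if T ⊆ R ∧ a ≤ ((R ∩ C).card : ℝ) then
      p ^ R.card * (1 - p) ^ (Fintype.card V - R.card) else 0) := by
    rw [rp_eq, sum_filter]
    exact sum_congr rfl fun R _ => by congr
  rw [key]
  have h1 : ∀ R ∈ (univ : Finset (Finset V)), (if T ⊆ R ∧ a ≤ ((R ∩ C).card : ℝ) then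
      p ^ R.card * (1 - p) ^ (Fintype.card V - R.card) else 0) ≤
      Real.exp (-(l * a)) * (if T ⊆ R then
      p ^ R.card * (1 - p) ^ (Fintype.card V - R.card) * (Real.exp l) ^ (R ∩ C).card else 0) := by
    intro R _
    have h0 := wt_nonneg hp0 hp1 R
    by_cases hT : T ⊆ R
    · rw [if_pos hT]
      by_cases ha : a ≤ ((R ∩ C).card : ℝ)
      · rw [if_pos ⟨hT, ha⟩]
        have h2 : 1 ≤ Real.exp (-(l * a)) * (Real.exp l) ^ (R ∩ C).card := by
          rw [← Real.exp_nat_mul, ← Real.exp_add]
          apply Real.one_le_exp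
          nlinarith
        calc _ ≤ (p ^ R.card * (1 - p) ^ (Fintype.card V - R.card)) *
              (Real.exp (-(l * a)) * (Real.exp l) ^ (R ∩ C).card) := le_mul_of_one_le_right h0 h2
          _ = _ := by ring
      · rw [if_neg (fun h => ha h.2)]
        positivity
    · rw [if_neg (fun h => hT h.1), if_neg hT, mul_zero]
  refine (sum_le_sum h1).trans ?_
  rw [← mul_sum, moment T C hTC]
  have hexp : Real.exp l - 1 ≤ l + l ^ 2 := by
    have h5 := Real.abs_exp_sub_one_sub_id_le (x := l) (by rw [abs_of_nonneg hl]; linarith)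
    have h6 := (abs_le.1 h5).2
    linarith
  have hexp0 : 0 ≤ Real.exp l - 1 := by
    have := Real.add_one_le_exp l
    linarith
  have h5 : (1 + p * (Real.exp l - 1)) ^ C.card ≤ Real.exp (p * (l + l ^ 2) * C.card) := by
    calc (1 + p * (Real.exp l - 1)) ^ C.card ≤ (Real.exp (p * (l + l ^ 2))) ^ C.card := by
          apply pow_le_pow_left₀ (by positivity)
          have h6 := Real.add_one_le_exp (p * (l + l ^ 2))
          nlinarith
      _ = _ := by rw [← Real.exp_nat_mul]; ring_nf
  calc Real.exp (-(l * a)) * (p ^ T.card * (1 + p * (Real.exp l - 1)) ^ C.card)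
      ≤ Real.exp (-(l * a)) * (p ^ T.card * Real.exp (p * (l + l ^ 2) * C.card)) := by
        gcongr
    _ = p ^ T.card * (Real.exp (p * (l + l ^ 2) * C.card) * Real.exp (-(l * a))) := by ring
    _ = _ := by rw [← Real.exp_add]; ring_nf

/-- total probability -/
theorem rp_true (p : ℝ) : rp (V := V) p (fun _ => True) = 1 := by
  classical
  rw [rp_eq, filter_true, Fintype.sum_pow_mul_eq_add_pow]
  simp

/-- lower tail -/
theorem lower (C : Finset V) {p l a : ℝ} (hp0 : 0 ≤ p) (hp1 : p ≤ 1) (hl : 0 ≤ l) (hl1 : l ≤ 1) :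
    rp p (fun R => ((R ∩ C).card : ℝ) < a) ≤ Real.exp (l * a - p * (l - l ^ 2) * C.card) := by
  classical
  rw [rp_eq, sum_filter]
  have h1 : ∀ R ∈ (univ : Finset (Finset V)), (if ((R ∩ C).card : ℝ) < a then
      p ^ R.card * (1 - p) ^ (Fintype.card V - R.card) else 0) ≤
      Real.exp (l * a) * (if (∅ : Finset V) ⊆ R then
      p ^ R.card * (1 - p) ^ (Fintype.card V - R.card) * (Real.exp (-l)) ^ (R ∩ C).card else 0) := by
    intro R _
    have h0 := wt_nonneg hp0 hp1 R
    rw [if_pos (empty_subset _)]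
    split_ifs with ha
    · have h2 : 1 ≤ Real.exp (l * a) * (Real.exp (-l)) ^ (R ∩ C).card := by
        rw [← Real.exp_nat_mul, ← Real.exp_add]
        apply Real.one_le_exp
        nlinarith
      calc _ ≤ (p ^ R.card * (1 - p) ^ (Fintype.card V - R.card)) *
            (Real.exp (l * a) * (Real.exp (-l)) ^ (R ∩ C).card) := le_mul_of_one_le_right h0 h2
        _ = _ := by ring
    · positivity
  refine (sum_le_sum h1).trans ?_
  rw [← mul_sum, moment ∅ C (disjoint_empty_left _)]
  have hexp : Real.exp (-l) - 1 ≤ -(l - l ^ 2) := by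
    have h5 := Real.abs_exp_sub_one_sub_id_le (x := -l) (by rw [abs_neg, abs_of_nonneg hl]; linarith)
    have h6 := (abs_le.1 h5).2
    nlinarith
  have hpos : 0 ≤ 1 + p * (Real.exp (-l) - 1) := by
    have := Real.exp_pos (-l)
    nlinarith
  have h5 : (1 + p * (Real.exp (-l) - 1)) ^ C.card ≤ Real.exp (-(p * (l - l ^ 2) * C.card)) := by
    calc (1 + p * (Real.exp (-l) - 1)) ^ C.card ≤ (Real.exp (-(p * (l - l ^ 2)))) ^ C.card := by
          apply pow_le_pow_left₀ hpos
          have h6 := Real.add_one_le_exp (-(p * (l - l ^ 2)))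
          nlinarith
      _ = _ := by rw [← Real.exp_nat_mul]; ring_nf
  rw [card_empty, pow_zero, one_mul]
  calc Real.exp (l * a) * (1 + p * (Real.exp (-l) - 1)) ^ C.card
      ≤ Real.exp (l * a) * Real.exp (-(p * (l - l ^ 2) * C.card)) := by gcongr
    _ = _ := by rw [← Real.exp_add]; ring_nf

end Pool.Agent.R535.SP
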