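import Mathlib
import Pool.Agent.R535.SP.KW

set_option autoImplicit false

/-! Counting and sparse random version from containers. -/

namespace Pool.Agent.R535.SP

open Finset

variable {V : Type} [Fintype V] [DecidableEq V]

open Classical in
/-- counting -/
theorem count_le (I : Finset V → Prop) (F : Finset V → Finset V) {m₀ t x : ℝ}
    (hF : ∀ T, ((F T).card : ℝ) ≤ m₀) (hx : 0 < x) (hx1 : x ≤ 1)
    (h : ∀ S, I S → ∃ T ⊆ S, (T.card : ℝ) ≤ t ∧ S ⊆ T ∪ F T) :
    (((univ : Finset (Finset V)).filter I).card : ℝ) ≤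
      Real.exp (t * Real.log (1 / x) + x * Fintype.card V + m₀ * Real.log 2) := by
  set 𝒯 := (univ : Finset (Finset V)).filter (fun T => (T.card : ℝ) ≤ t) with h𝒯
  have hsub : (univ : Finset (Finset V)).filter I ⊆
      𝒯.biUnion fun T => (F T).powerset.image fun A => T ∪ A := by
    intro S hS
    obtain ⟨T, hT, hc, hST⟩ := h S (mem_filter.1 hS).2
    rw [mem_biUnion]
    refine ⟨T, mem_filter.2 ⟨mem_univ _, hc⟩, mem_image.2 ⟨S ∩ F T, ?_, ?_⟩⟩
    · rw [mem_powerset]
      exact inter_subset_right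
    · ext v
      rw [mem_union, mem_inter]
      constructor
      · rintro (hv | hv)
        · exact hT hv
        · exact hv.1
      · intro hv
        rcases mem_union.1 (hST hv) with h1 | h1
        · exact Or.inl h1
        · exact Or.inr ⟨hv, h1⟩
  have h1 : ((((univ : Finset (Finset V)).filter I).card : ℕ) : ℝ) ≤ ∑ T ∈ 𝒯, Real.exp (m₀ * Real.log 2) := by
    have e1 : ((univ : Finset (Finset V)).filter I).card ≤ ∑ T ∈ 𝒯, 2 ^ (F T).card := by
      refine (card_le_card hsub).trans (card_biUnion_le.trans (sum_le_sum fun T _ => ?_))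
      exact card_image_le.trans (by rw [card_powerset])
    have e2 : ((((univ : Finset (Finset V)).filter I).card : ℕ) : ℝ) ≤ ∑ T ∈ 𝒯, (2 : ℝ) ^ (F T).card := by
      exact_mod_cast e1
    refine e2.trans (sum_le_sum fun T _ => ?_)
    have e3 : (2 : ℝ) ^ (F T).card = Real.exp ((F T).card * Real.log 2) := by
      rw [Real.exp_nat_mul, Real.exp_log (by norm_num)]
    rw [e3]
    apply Real.exp_le_exp.2
    have : 0 ≤ Real.log 2 := Real.log_nonneg (by norm_num)
    exact mul_le_mul_of_nonneg_right (hF T) this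
  refine h1.trans ?_
  rw [sum_const, nsmul_eq_mul, Real.exp_add]
  apply mul_le_mul_of_nonneg_right _ (Real.exp_nonneg _)
  have h2 := sum_small (V := V) (q := 1) (t := t) zero_le_one hx hx1
  rw [one_mul] at h2
  simp only [one_pow, sum_const, nsmul_eq_mul, mul_one] at h2
  exact h2

/-- sparse random version -/
theorem sparse_le (I : Finset V → Prop) (F : Finset V → Finset V) {m₀ t x p l a : ℝ}
    (hF : ∀ T, ((F T).card : ℝ) ≤ m₀) (hx : 0 < x) (hx1 : x ≤ 1) (hp0 : 0 ≤ p) (hp1 : p ≤ 1)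
    (hl : 0 ≤ l) (hl1 : l ≤ 1)
    (h : ∀ S, I S → ∃ T ⊆ S, (T.card : ℝ) ≤ t ∧ S ⊆ T ∪ F T) :
    rp p (fun R => ∃ S ⊆ R, I S ∧ a ≤ (S.card : ℝ)) ≤
      Real.exp (t * Real.log (1 / x) + p * x * Fintype.card V +
        (p * (l + l ^ 2) * m₀ - l * (a - t))) := by
  classical
  set 𝒯 := (univ : Finset (Finset V)).filter (fun T => (T.card : ℝ) ≤ t) with h𝒯
  have h1 : rp p (fun R : Finset V => ∃ S ⊆ R, I S ∧ a ≤ (S.card : ℝ)) ≤
      rp p (fun R : Finset V => ∃ T ∈ 𝒯, T ⊆ R ∧ a - t ≤ ((R ∩ (F T \ T)).card : ℝ)) := by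
    apply rp_mono hp0 hp1
    rintro R ⟨S, hSR, hI, ha⟩
    obtain ⟨T, hT, hc, hST⟩ := h S hI
    refine ⟨T, mem_filter.2 ⟨mem_univ _, hc⟩, hT.trans hSR, ?_⟩
    have e1 : S.card ≤ T.card + (R ∩ (F T \ T)).card := by
      have e2 : S ⊆ T ∪ (R ∩ (F T \ T)) := by
        intro v hv
        by_cases hvT : v ∈ T
        · exact mem_union_left _ hvT
        · refine mem_union_right _ (mem_inter.2 ⟨hSR hv, mem_sdiff.2 ⟨?_, hvT⟩⟩)
          exact (mem_union.1 (hST hv)).resolve_left hvT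
      exact (card_le_card e2).trans (card_union_le _ _)
    have e3 : (S.card : ℝ) ≤ T.card + ((R ∩ (F T \ T)).card : ℝ) := by exact_mod_cast e1
    linarith
  refine h1.trans ((rp_union hp0 hp1 𝒯 _).trans ?_)
  have h2 : ∀ T ∈ 𝒯, rp p (fun R : Finset V => T ⊆ R ∧ a - t ≤ ((R ∩ (F T \ T)).card : ℝ)) ≤
      p ^ T.card * Real.exp (p * (l + l ^ 2) * m₀ - l * (a - t)) := by
    intro T _
    refine (tail T (F T \ T) disjoint_sdiff hp0 hp1 hl hl1).trans ?_
    have e1 : ((F T \ T).card : ℝ) ≤ m₀ := by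
      refine le_trans ?_ (hF T)
      exact_mod_cast card_le_card sdiff_subset
    gcongr
  refine (sum_le_sum h2).trans ?_
  rw [← sum_mul, Real.exp_add]
  apply mul_le_mul_of_nonneg_right _ (Real.exp_nonneg _)
  exact sum_small hp0 hx hx1

theorem rp_not {p : ℝ} (Q : Finset V → Prop) :
    rp p (fun R => ¬ Q R) = 1 - rp p Q := by
  classical
  rw [← rp_true (V := V) p, rp_eq, rp_eq, rp_eq, filter_true]
  rw [eq_sub_iff_add_eq, ← sum_filter_add_sum_filter_not univ Q, add_comm]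
  congr!

end Pool.Agent.R535.SP
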