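import Mathlib
import Pool.Agent.R535.SP.Big
import Pool.Agent.Results.MP_90b327_co.Universality

set_option autoImplicit false

/-! Families of high density contain pairs `A`, `A ∪ γ^d` with `γ` a union of blocks. -/

namespace Pool.Agent.R535.SP

open Finset Pool.Agent.H720R3 Pool.Agent.TH635.PH
open Pool.Agent.Results.MP_90b327_co.Universality (cube Good AllProducts Uniform GoodWords)

theorem exists_large {κ : ℝ} (hκ : 0 < κ) (y : ℝ) (hy : 0 < y) (N₀ : ℕ) :
    ∃ m : ℕ, N₀ ≤ m ∧ (m : ℝ) ^ (-κ) ≤ y := by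
  have h := (tendsto_rpow_neg_atTop hκ).comp (tendsto_natCast_atTop_atTop (R := ℝ))
  have h2 := (h.eventually (ge_mem_nhds hy)).and (Filter.eventually_ge_atTop N₀)
  obtain ⟨m, hm1, hm2⟩ := h2.exists
  exact ⟨m, hm2, hm1⟩

theorem big_of_products {d : ℕ} {δ : ℝ} (h : AllProducts d δ) {δ' : ℝ} (hδ : δ < δ') (b : ℕ) :
    ∃ n : ℕ, ∀ T : Finset (Finset (Fin d → Fin n)), δ' * 2 ^ (n ^ d) < T.card → Gb b d T := by
  classical
  obtain ⟨κ, hκ, N₀, hN⟩ := h δ' hδ
  obtain ⟨m, hm, hmκ⟩ := exists_large hκ ((1 / 2 : ℝ) ^ (b ^ d)) (by positivity) N₀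
  refine ⟨m * b, fun T hT => ?_⟩
  set e : Fin m × Fin b ≃ Fin (m * b) := finProdFinEquiv with he
  -- the word of a set
  set W : Finset (Fin d → Fin (m * b)) → ((Fin d → Fin m) → Finset (Fin d → Fin b)) :=
    fun A c => univ.filter fun f => (fun i => e (c i, f i)) ∈ A with hW
  have hWmem : ∀ A c f, f ∈ W A c ↔ (fun i => e (c i, f i)) ∈ A := by
    intro A c f
    rw [hW]
    simp
  have hWz : ∀ (A : Finset (Fin d → Fin (m * b))) (z : Fin d → Fin (m * b)),
      z ∈ A ↔ (fun i => (e.symm (z i)).2) ∈ W A (fun i => (e.symm (z i)).1) := by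
    intro A z
    rw [hWmem]
    have : (fun i => e ((e.symm (z i)).1, (e.symm (z i)).2)) = z := by
      funext i
      simp
    rw [this]
  have hWinj : Function.Injective W := by
    intro A B hAB
    ext z
    rw [hWz A z, hWz B z, hAB]
  set S : Finset ((Fin d → Fin m) → Finset (Fin d → Fin b)) := T.image W with hS
  have hcardQ : Fintype.card (Finset (Fin d → Fin b)) = 2 ^ (b ^ d) := by
    rw [Fintype.card_finset, Fintype.card_fun, Fintype.card_fin, Fintype.card_fin]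
  have hgood := hN m hm (Finset (Fin d → Fin b)) ∅ univ (fun _ _ => (1 / 2 : ℝ) ^ (b ^ d))
    (fun _ _ => by positivity) (fun _ => by
      rw [sum_const, card_univ, hcardQ, nsmul_eq_mul]
      push_cast
      rw [← mul_pow]
      norm_num) (fun _ => ⟨hmκ, hmκ⟩) S (by
      rw [sum_const, prod_const, card_univ, Fintype.card_fun, Fintype.card_fin, Fintype.card_fin,
        hS, card_image_of_injective _ hWinj, nsmul_eq_mul, ← pow_mul, one_div, inv_pow,
        ← div_eq_mul_inv, lt_div_iff₀ (by positivity)]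
      have : b ^ d * m ^ d = (m * b) ^ d := by rw [mul_pow, mul_comm]
      rw [this]
      exact hT)
  obtain ⟨x, hx, y, hy, γ', hγ', h1, h2⟩ := hgood
  rw [hS, mem_image] at hx hy
  obtain ⟨A, hA, rfl⟩ := hx
  obtain ⟨B, hB, rfl⟩ := hy
  set γ : Finset (Fin (m * b)) := univ.filter fun v => (e.symm v).1 ∈ γ' with hγ
  have hpw : ∀ z : Fin d → Fin (m * b), z ∈ pw d γ ↔ (fun i => (e.symm (z i)).1) ∈ cube d γ' := by
    intro z
    rw [mem_pw]
    unfold cube
    rw [Fintype.mem_piFinset]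
    refine forall_congr' fun i => ?_
    rw [hγ, mem_filter]
    simp
  refine ⟨A, hA, B, hB, γ, ?_, ?_, ?_⟩
  · obtain ⟨g, hg⟩ := hγ'
    have : (univ : Finset (Fin b)).card ≤ γ.card := by
      refine card_le_card_of_injOn (fun f => e (g, f)) (fun f _ => ?_) ?_
      · rw [mem_coe, hγ, mem_filter]
        simp [hg]
      · intro f _ f' _ hff
        have := e.injective hff
        exact (Prod.mk.inj this).2
    simpa using this
  · rw [disjoint_left]
    intro z hz hzγ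
    rw [hWz A z, (h1 _ ((hpw z).1 hzγ)).1] at hz
    exact absurd hz (notMem_empty _)
  · ext z
    rw [mem_union]
    by_cases hzγ : z ∈ pw d γ
    · have := (h1 _ ((hpw z).1 hzγ)).2
      rw [hWz B z, this]
      simp [hzγ]
    · have := h2 _ (fun hh => hzγ ((hpw z).2 hh))
      rw [hWz B z, ← this, ← hWz A z]
      simp [hzγ]

/-- `B = A ∪ γ^d` with `A` disjoint from `γ^d`, `γ` not empty -/
def rel (d : ℕ) {N : ℕ} (A B : Finset (Fin d → Fin N)) : Prop :=
  ∃ γ : Finset (Fin N), γ.Nonempty ∧ Disjoint A (cube d γ) ∧ A ∪ cube d γ = B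

theorem not_good_iff {d N : ℕ} (S : Finset (Finset (Fin d → Fin N))) :
    ¬ Good S ↔ ∀ A ∈ S, ∀ B ∈ S, ¬ rel d A B := by
  unfold Good rel
  constructor
  · rintro h A hA B hB ⟨γ, h1, h2, rfl⟩
    exact h ⟨A, hA, γ, h1, h2, hB⟩
  · rintro h ⟨A, hA, γ, h1, h2, h3⟩
    exact h A hA _ h3 ⟨γ, h1, h2, rfl⟩

theorem cube_inj {d N : ℕ} (hd : 1 ≤ d) {γ γ' : Finset (Fin N)} (h : cube d γ = cube d γ') :
    γ = γ' := by
  have : ∀ γ : Finset (Fin N), ∀ v, v ∈ γ ↔ (fun _ => v) ∈ cube d γ := by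
    intro γ v
    unfold cube
    rw [Fintype.mem_piFinset]
    exact ⟨fun h _ => h, fun h => h ⟨0, by omega⟩⟩
  ext v
  rw [this γ, this γ', h]

open Classical in
/-- the degree condition -/
theorem degree {d : ℕ} (hd : 1 ≤ d) {δ : ℝ} (h : AllProducts d δ) {δ' : ℝ} (hδ : δ < δ')
    (hδ0 : 0 ≤ δ) (b : ℕ) :
    ∃ (c : ℝ) (N₀ : ℕ), 0 < c ∧ ∀ N : ℕ, N₀ ≤ N → ∀ W : Finset (Finset (Fin d → Fin N)),
      δ' * 2 ^ (N ^ d) < W.card →
        ∃ A ∈ W, c * (N : ℝ) ^ b ≤ ((W.filter fun B => rel d A B).card : ℝ) := by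
  have hmid : δ < (δ + δ') / 2 := by linarith
  have hmid2 : (δ + δ') / 2 < δ' := by linarith
  obtain ⟨n, hn⟩ := big_of_products h hmid (b + 1)
  set c₀ : ℝ := (δ' - (δ + δ') / 2) / 2 ^ (n ^ d + n) with hc₀
  have hc₀pos : 0 < c₀ := div_pos (by linarith) (by positivity)
  refine ⟨c₀ / (2 ^ n * n.factorial), 2 * n + 2, by positivity, fun N hN W hW => ?_⟩
  obtain ⟨k, hk1, hk2, hk3⟩ := many (b := b + 1) hmid2 hn (by omega : n ≤ N) hW
  rw [← hc₀] at hk3
  -- the number of sets for one `A`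
  set G : Finset (Fin d → Fin N) → Finset (Finset (Fin N)) := fun A =>
    univ.filter fun γ => γ.card = k ∧ Disjoint A (cube d γ) ∧ A ∪ cube d γ ∈ W with hG
  have hsum : (univ.filter fun q : Finset (Fin d → Fin N) × Finset (Fin N) =>
      prb (b + 1) W q ∧ q.2.card = k).card ≤ ∑ A ∈ W, (G A).card := by
    rw [← card_sigma]
    refine card_le_card_of_injOn (fun q => ⟨q.1, q.2⟩) (fun q hq => ?_) ?_
    · obtain ⟨-, ⟨h1, h2, h3, h4⟩, h5⟩ := mem_filter.1 (mem_coe.1 hq)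
      rw [mem_coe, mem_sigma]
      exact ⟨h2, by rw [hG, mem_filter]; exact ⟨mem_univ _, h5, h3, h4⟩⟩
    · intro q _ q' _ hqq
      have h1 := congrArg Sigma.fst hqq
      have h2 : q.2 = q'.2 := by
        have := (Sigma.mk.inj_iff.1 hqq).2
        exact eq_of_heq this
      exact Prod.ext h1 h2
  have hWpos : 0 < W.card := by
    have : (0 : ℝ) < W.card := lt_of_le_of_lt (mul_nonneg (by linarith) (by positivity)) hW
    exact_mod_cast this
  have hex : ∃ A ∈ W, c₀ * (N.choose k : ℝ) ≤ ((G A).card : ℝ) := by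
    by_contra hcon
    push Not at hcon
    have hlt : ∑ A ∈ W, ((G A).card : ℝ) < ∑ A ∈ W, c₀ * (N.choose k : ℝ) :=
      sum_lt_sum_of_nonempty (card_pos.1 hWpos) hcon
    rw [sum_const, nsmul_eq_mul] at hlt
    have hWle : (W.card : ℝ) ≤ 2 ^ (N ^ d) := by
      have := card_le_univ W
      rw [Fintype.card_finset, Fintype.card_fun, Fintype.card_fin, Fintype.card_fin] at this
      exact_mod_cast this
    have h1 : ((univ.filter fun q : Finset (Fin d → Fin N) × Finset (Fin N) =>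
      prb (b + 1) W q ∧ q.2.card = k).card : ℝ) ≤ ∑ A ∈ W, ((G A).card : ℝ) := by
      exact_mod_cast hsum
    have h2 : (W.card : ℝ) * (c₀ * (N.choose k : ℝ)) ≤ 2 ^ (N ^ d) * (c₀ * (N.choose k : ℝ)) := by
      gcongr
    have h3 : c₀ * 2 ^ (N ^ d) * (N.choose k : ℝ) = 2 ^ (N ^ d) * (c₀ * (N.choose k : ℝ)) := by ring
    linarith
  obtain ⟨A, hA, hGA⟩ := hex
  refine ⟨A, hA, ?_⟩
  have hle : (G A).card ≤ (W.filter fun B => rel d A B).card := by
    refine card_le_card_of_injOn (fun γ => A ∪ cube d γ) (fun γ hγ => ?_) ?_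
    · obtain ⟨-, h1, h2, h3⟩ := mem_filter.1 (mem_coe.1 hγ)
      rw [mem_coe, mem_filter]
      exact ⟨h3, γ, card_pos.1 (by omega), h2, rfl⟩
    · intro γ hγ γ' hγ' hh
      obtain ⟨-, -, h2, -⟩ := mem_filter.1 (mem_coe.1 hγ)
      obtain ⟨-, -, h2', -⟩ := mem_filter.1 (mem_coe.1 hγ')
      apply cube_inj hd
      have hh' : A ∪ cube d γ = A ∪ cube d γ' := hh
      have e1 : (A ∪ cube d γ) \ A = cube d γ := by
        rw [union_sdiff_left, sdiff_eq_self_of_disjoint h2.symm]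
      have e2 : (A ∪ cube d γ') \ A = cube d γ' := by
        rw [union_sdiff_left, sdiff_eq_self_of_disjoint h2'.symm]
      rw [← e1, ← e2, hh']
  have hle' : ((G A).card : ℝ) ≤ ((W.filter fun B => rel d A B).card : ℝ) := by exact_mod_cast hle
  refine le_trans ?_ (hGA.trans hle')
  -- the binomial coefficient
  have hch : ((N + 1 - k : ℕ) : ℝ) ^ k ≤ (k.factorial : ℝ) * (N.choose k : ℝ) := by
    have := Nat.pow_le_choose (α := ℝ) k N
    rw [div_le_iff₀ (by positivity)] at this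
    rw [mul_comm]
    exact_mod_cast this
  have hNk : (N : ℝ) / 2 ≤ ((N + 1 - k : ℕ) : ℝ) := by
    have : N ≤ 2 * (N + 1 - k) := by omega
    have h2 : (N : ℝ) ≤ 2 * ((N + 1 - k : ℕ) : ℝ) := by exact_mod_cast this
    linarith
  have hN2 : (1 : ℝ) ≤ (N : ℝ) / 2 := by
    have : (2 : ℝ) ≤ N := by exact_mod_cast (by omega : 2 ≤ N)
    linarith
  have h1 : ((N : ℝ) / 2) ^ b ≤ (k.factorial : ℝ) * (N.choose k : ℝ) := by
    calc ((N : ℝ) / 2) ^ b ≤ ((N : ℝ) / 2) ^ k := pow_le_pow_right₀ hN2 (by omega)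
      _ ≤ ((N + 1 - k : ℕ) : ℝ) ^ k := by gcongr
      _ ≤ _ := hch
  have h2 : (k.factorial : ℝ) ≤ (n.factorial : ℝ) := by exact_mod_cast Nat.factorial_le hk2
  have h3 : (2 : ℝ) ^ b ≤ 2 ^ n := pow_le_pow_right₀ (by norm_num) (by omega)
  have h4 : (N : ℝ) ^ b ≤ 2 ^ n * (n.factorial : ℝ) * (N.choose k : ℝ) := by
    have e : (N : ℝ) ^ b = 2 ^ b * ((N : ℝ) / 2) ^ b := by
      rw [← mul_pow]
      congr 1
      ring
    rw [e]
    calc (2 : ℝ) ^ b * ((N : ℝ) / 2) ^ b ≤ 2 ^ n * ((k.factorial : ℝ) * (N.choose k : ℝ)) := by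
          gcongr
      _ ≤ 2 ^ n * ((n.factorial : ℝ) * (N.choose k : ℝ)) := by gcongr
      _ = _ := by ring
  rw [div_mul_eq_mul_div, div_le_iff₀ (by positivity)]
  calc c₀ * (N : ℝ) ^ b ≤ c₀ * (2 ^ n * (n.factorial : ℝ) * (N.choose k : ℝ)) := by gcongr
    _ = _ := by ring

end Pool.Agent.R535.SP
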