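import Mathlib
import Pool.Agent.R535.SP.Abs
import Pool.Agent.R535.SP.Blocks

set_option autoImplicit false

/-! The equivalent forms. -/

namespace Pool.Agent.R535.SP

open Finset
open Pool.Agent.Results.MP_90b327_co.Universality (cube Good OneSize Uniform AllProducts)

/-- all families which are not good have small fingerprints and containers of density `δ'` -/
def Containers (d : ℕ) (δ : ℝ) : Prop :=
  ∀ δ' : ℝ, δ < δ' → ∀ b : ℕ, ∃ N₀ : ℕ, ∀ N : ℕ, N₀ ≤ N →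
    ∃ F : Finset (Finset (Fin d → Fin N)) → Finset (Finset (Fin d → Fin N)),
      (∀ T, ((F T).card : ℝ) ≤ δ' * 2 ^ (N ^ d)) ∧
      ∀ S : Finset (Finset (Fin d → Fin N)), ¬ Good S →
        ∃ T ⊆ S, (T.card : ℝ) * (N : ℝ) ^ b ≤ 2 ^ (N ^ d) ∧ S ⊆ T ∪ F T

open Classical in
/-- the number of families that are not good -/
noncomputable def numFree (d N : ℕ) : ℕ :=
  ((univ : Finset (Finset (Finset (Fin d → Fin N)))).filter fun S => ¬ Good S).card

def Counting (d : ℕ) (δ : ℝ) : Prop :=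
  ∀ δ' : ℝ, δ < δ' → ∃ N₀ : ℕ, ∀ N : ℕ, N₀ ≤ N →
    (numFree d N : ℝ) ≤ (2 : ℝ) ^ (δ' * 2 ^ (N ^ d))

open Classical in
/-- the probability that the random family `R` contains a family `S` which is not good and has at
least `a` members -/
noncomputable def probFree (d N : ℕ) (p a : ℝ) : ℝ :=
  ∑ R ∈ (univ : Finset (Finset (Finset (Fin d → Fin N)))).filter
      (fun R => ∃ S ⊆ R, ¬ Good S ∧ a ≤ (S.card : ℝ)),
    p ^ R.card * (1 - p) ^ (2 ^ (N ^ d) - R.card)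

def Sparse (d : ℕ) (δ : ℝ) : Prop :=
  ∀ δ' : ℝ, δ < δ' → ∃ c : ℝ, 0 < c ∧ ∀ t : ℕ, ∃ N₀ : ℕ, ∀ N : ℕ, N₀ ≤ N → ∀ p : ℝ,
    1 / (N : ℝ) ^ t ≤ p → p ≤ 1 →
      probFree d N p (δ' * (p * 2 ^ (N ^ d))) ≤ Real.exp (-(c * (p * 2 ^ (N ^ d))))

def SomeSparse (d : ℕ) (δ : ℝ) : Prop :=
  ∀ δ' : ℝ, δ < δ' → ∀ K : ℝ, ∃ (N : ℕ) (p : ℝ), 0 ≤ p ∧ p ≤ 1 ∧ K ≤ p * 2 ^ (N ^ d) ∧
    probFree d N p (δ' * (p * 2 ^ (N ^ d))) ≤ 1 / 2

theorem card_V (d N : ℕ) : Fintype.card (Finset (Fin d → Fin N)) = 2 ^ (N ^ d) := by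
  rw [Fintype.card_finset, Fintype.card_fun, Fintype.card_fin, Fintype.card_fin]

theorem probFree_eq (d N : ℕ) (p a : ℝ) : probFree d N p a =
    rp p (fun R : Finset (Finset (Fin d → Fin N)) => ∃ S ⊆ R, ¬ Good S ∧ a ≤ (S.card : ℝ)) := by
  rw [rp_eq, card_V]
  unfold probFree
  congr!

theorem pow_large (d : ℕ) (hd : 1 ≤ d) (N : ℕ) : (N : ℝ) ≤ 2 ^ (N ^ d) := by
  have h1 : N ≤ N ^ d := Nat.le_self_pow (by omega) N
  have h2 : N < 2 ^ N := Nat.lt_two_pow_self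
  have h3 : 2 ^ N ≤ 2 ^ (N ^ d) := Nat.pow_le_pow_right (by norm_num) h1
  exact_mod_cast h2.le.trans h3

theorem containers_of {d : ℕ} (hd : 1 ≤ d) {δ : ℝ} (hδ0 : 0 ≤ δ) (h : AllProducts d δ) :
    Containers d δ := by
  classical
  intro δ' hδ b
  obtain ⟨c, N₀, hc, hN⟩ := degree hd h hδ hδ0 (b + 1)
  obtain ⟨N₁, hN₁⟩ := exists_nat_gt (1 / c)
  refine ⟨max N₀ N₁, fun N hNN => ?_⟩
  obtain ⟨F, hF1, hF2⟩ := containers_univ (V := Finset (Fin d → Fin N)) (fun A B => rel d A B)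
    (m₀ := δ' * 2 ^ (N ^ d)) (D := c * (N : ℝ) ^ (b + 1)) (by positivity)
    (mul_nonneg (by linarith) (by positivity)) (fun W hW => hN N ((le_max_left _ _).trans hNN) W hW)
  refine ⟨F, hF1, fun S hS => ?_⟩
  obtain ⟨T, hT, hc1, hST⟩ := hF2 S ((not_good_iff S).1 hS)
  refine ⟨T, hT, ?_, hST⟩
  rw [card_V] at hc1
  push_cast at hc1
  refine le_trans ?_ hc1
  have h1 : 1 ≤ c * N := by
    have : (N₁ : ℝ) ≤ N := by exact_mod_cast (le_max_right _ _).trans hNN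
    have h2 : 1 / c < N := lt_of_lt_of_le hN₁ this
    rw [div_lt_iff₀ hc] at h2
    linarith
  calc (T.card : ℝ) * (N : ℝ) ^ b = T.card * (N : ℝ) ^ b * 1 := by ring
    _ ≤ T.card * (N : ℝ) ^ b * (c * N) := by gcongr
    _ = _ := by ring

theorem one_of_containers {d : ℕ} {δ : ℝ} (hδ0 : 0 ≤ δ) (h : Containers d δ) : Uniform d δ := by
  intro δ' hδ
  have hmid : δ < (δ + δ') / 2 := by linarith
  obtain ⟨N₀, hN₀⟩ := h _ hmid 1
  obtain ⟨N₁, hN₁⟩ := exists_nat_gt (1 / (δ' - (δ + δ') / 2))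
  refine ⟨max N₀ N₁, fun N hN S hS => ?_⟩
  by_contra hg
  obtain ⟨F, hF1, hF2⟩ := hN₀ N ((le_max_left _ _).trans hN)
  obtain ⟨T, hT, hc, hST⟩ := hF2 S hg
  have h1 : (S.card : ℝ) ≤ T.card + (F T).card := by
    exact_mod_cast (card_le_card hST).trans (card_union_le _ _)
  have h2 := hF1 T
  have hη : 0 < δ' - (δ + δ') / 2 := by linarith
  have hN1 : (N₁ : ℝ) ≤ N := by exact_mod_cast (le_max_right _ _).trans hN
  have h3 : 1 < (δ' - (δ + δ') / 2) * N := by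
    have := lt_of_lt_of_le hN₁ hN1
    rw [div_lt_iff₀ hη] at this
    linarith
  rw [pow_one] at hc
  have hNpos : (0 : ℝ) < N := by
    by_contra h0
    have : (N : ℝ) ≤ 0 := not_lt.1 h0
    nlinarith
  have hM : (0 : ℝ) < 2 ^ (N ^ d) := by positivity
  have h4 : (T.card : ℝ) ≤ (δ' - (δ + δ') / 2) * 2 ^ (N ^ d) := by
    have h5 : (T.card : ℝ) * N ≤ ((δ' - (δ + δ') / 2) * 2 ^ (N ^ d)) * N := by
      nlinarith
    exact le_of_mul_le_mul_right h5 hNpos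
  linarith

theorem counting_of {d : ℕ} {δ : ℝ} (hδ0 : 0 ≤ δ) (h : Containers d δ) : Counting d δ := by
  classical
  intro δ' hδ
  have hmid : δ < (δ + δ') / 2 := by linarith
  obtain ⟨N₀, hN₀⟩ := h _ hmid 1
  set η : ℝ := (δ' - (δ + δ') / 2) * Real.log 2 with hη
  have hlog2 : 0 < Real.log 2 := Real.log_pos (by norm_num)
  have hηpos : 0 < η := mul_pos (by linarith) hlog2
  set x : ℝ := min 1 (η / 2) with hx
  have hxpos : 0 < x := lt_min one_pos (by linarith)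
  have hx1 : x ≤ 1 := min_le_left _ _
  have hx2 : x ≤ η / 2 := min_le_right _ _
  obtain ⟨N₁, hN₁⟩ := exists_nat_gt (Real.log (1 / x) / (η / 2))
  refine ⟨max (max N₀ N₁) 1, fun N hN => ?_⟩
  have hNN0 : N₀ ≤ N := ((le_max_left _ _).trans (le_max_left _ _)).trans hN
  have hNN1 : (N₁ : ℝ) ≤ N := by
    exact_mod_cast ((le_max_right _ _).trans (le_max_left _ _)).trans hN
  have hNpos : (0 : ℝ) < N := by exact_mod_cast (le_max_right _ _).trans hN
  obtain ⟨F, hF1, hF2⟩ := hN₀ N hNN0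
  have hcount := count_le (V := Finset (Fin d → Fin N)) (fun S => ¬ Good S) F
    (m₀ := (δ + δ') / 2 * 2 ^ (N ^ d)) (t := 2 ^ (N ^ d) / N) (x := x) hF1 hxpos hx1
    (fun S hS => by
      obtain ⟨T, hT, hc, hST⟩ := hF2 S hS
      refine ⟨T, hT, ?_, hST⟩
      rw [le_div_iff₀ hNpos]
      simpa using hc)
  have e0 : (numFree d N : ℝ) ≤ Real.exp (2 ^ (N ^ d) / N * Real.log (1 / x) +
      x * Fintype.card (Finset (Fin d → Fin N)) + (δ + δ') / 2 * 2 ^ (N ^ d) * Real.log 2) := by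
    unfold numFree
    convert hcount
  refine e0.trans ?_
  rw [Real.rpow_def_of_pos (by norm_num : (0 : ℝ) < 2)]
  apply Real.exp_le_exp.2
  rw [card_V]
  push_cast
  have hM : (0 : ℝ) < 2 ^ (N ^ d) := by positivity
  have h1 : Real.log (1 / x) / N ≤ η / 2 := by
    rw [div_le_iff₀ hNpos]
    have := lt_of_lt_of_le hN₁ hNN1
    rw [div_lt_iff₀ (by linarith)] at this
    linarith
  have h2 : (2 : ℝ) ^ (N ^ d) / N * Real.log (1 / x) = 2 ^ (N ^ d) * (Real.log (1 / x) / N) := by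
    ring
  rw [h2]
  have h3 : (2 : ℝ) ^ (N ^ d) * (Real.log (1 / x) / N) ≤ 2 ^ (N ^ d) * (η / 2) := by gcongr
  have h4 : x * 2 ^ (N ^ d) ≤ (η / 2) * 2 ^ (N ^ d) := by gcongr
  have h5 : Real.log 2 * (δ' * 2 ^ (N ^ d)) = 2 ^ (N ^ d) * (η / 2) + (η / 2) * 2 ^ (N ^ d) +
      (δ + δ') / 2 * 2 ^ (N ^ d) * Real.log 2 := by
    rw [hη]
    ring
  rw [h5]
  linarith

theorem uniform_of_counting {d : ℕ} {δ : ℝ} (h : Counting d δ) : Uniform d δ := by
  classical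
  intro δ' hδ
  obtain ⟨N₀, hN₀⟩ := h _ hδ
  refine ⟨N₀, fun N hN S hS => ?_⟩
  by_contra hg
  have h1 := hN₀ N hN
  have h2 : S.powerset ⊆ (univ : Finset (Finset (Finset (Fin d → Fin N)))).filter
      fun S => ¬ Good S := by
    intro S' hS'
    rw [mem_powerset] at hS'
    refine mem_filter.2 ⟨mem_univ _, fun hg' => hg ?_⟩
    obtain ⟨A, hA, γ, h1, h2, h3⟩ := hg'
    exact ⟨A, hS' hA, γ, h1, h2, hS' h3⟩
  have h3 : 2 ^ S.card ≤ numFree d N := by
    unfold numFree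
    rw [← card_powerset]
    exact card_le_card h2
  have h4 : ((2 : ℝ) ^ (S.card : ℝ)) ≤ (2 : ℝ) ^ (δ' * 2 ^ (N ^ d)) := by
    rw [Real.rpow_natCast]
    refine le_trans ?_ h1
    exact_mod_cast h3
  have h5 := (Real.rpow_le_rpow_left_iff (by norm_num : (1 : ℝ) < 2)).1 h4
  linarith

theorem sparse_of {d : ℕ} {δ : ℝ} (hδ0 : 0 ≤ δ) (h : Containers d δ) : Sparse d δ := by
  classical
  intro δ' hδ
  have hmid : δ < (δ + δ') / 2 := by linarith
  set δ₁ : ℝ := (δ + δ') / 2 with hδ₁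
  have hδ₁0 : 0 ≤ δ₁ := by linarith
  have hgap : 0 < δ' - δ₁ := by linarith
  set l : ℝ := (δ' - δ₁) / (2 * (δ' + 1)) with hl
  have hδ'0 : 0 < δ' := by linarith
  have hlpos : 0 < l := div_pos hgap (by positivity)
  have hl1 : l ≤ 1 := by
    rw [hl, div_le_one (by positivity)]
    linarith
  have hlδ : l * δ₁ ≤ (δ' - δ₁) / 2 := by
    rw [hl, div_mul_eq_mul_div, div_le_iff₀ (by positivity)]
    nlinarith
  set κ : ℝ := l * (δ' - δ₁) / 8 with hκ
  have hκpos : 0 < κ := by positivity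
  set x : ℝ := min 1 κ with hx
  have hxpos : 0 < x := lt_min one_pos hκpos
  have hx1 : x ≤ 1 := min_le_left _ _
  have hx2 : x ≤ κ := min_le_right _ _
  refine ⟨κ, hκpos, fun t => ?_⟩
  obtain ⟨N₀, hN₀⟩ := h _ hmid (t + 1)
  obtain ⟨N₁, hN₁⟩ := exists_nat_gt ((Real.log (1 / x) + l) / κ)
  refine ⟨max (max N₀ N₁) 1, fun N hN p hp hp1 => ?_⟩
  have hNN0 : N₀ ≤ N := ((le_max_left _ _).trans (le_max_left _ _)).trans hN
  have hNN1 : (N₁ : ℝ) ≤ N := by
    exact_mod_cast ((le_max_right _ _).trans (le_max_left _ _)).trans hN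
  have hNpos : (0 : ℝ) < N := by exact_mod_cast (le_max_right _ _).trans hN
  have hp0 : 0 < p := lt_of_lt_of_le (by positivity) hp
  obtain ⟨F, hF1, hF2⟩ := hN₀ N hNN0
  set M : ℝ := 2 ^ (N ^ d) with hM
  have hMpos : 0 < M := by positivity
  have hs := sparse_le (V := Finset (Fin d → Fin N)) (fun S => ¬ Good S) F
    (m₀ := δ₁ * M) (t := p * M / N) (x := x) (p := p) (l := l) (a := δ' * (p * M))
    hF1 hxpos hx1 hp0.le hp1 hlpos.le hl1
    (fun S hS => by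
      obtain ⟨T, hT, hc, hST⟩ := hF2 S hS
      refine ⟨T, hT, ?_, hST⟩
      rw [le_div_iff₀ hNpos]
      have h1 : 1 ≤ p * (N : ℝ) ^ t := by
        rw [div_le_iff₀ (by positivity)] at hp
        exact hp
      have h2 : (T.card : ℝ) * N ≤ p * ((T.card : ℝ) * (N : ℝ) ^ (t + 1)) := by
        calc (T.card : ℝ) * N = (T.card : ℝ) * N * 1 := by ring
          _ ≤ (T.card : ℝ) * N * (p * (N : ℝ) ^ t) := by gcongr
          _ = _ := by ring
      refine h2.trans ?_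
      gcongr)
  rw [probFree_eq]
  refine hs.trans (Real.exp_le_exp.2 ?_)
  rw [card_V]
  push_cast
  rw [← hM]
  have hpM : 0 < p * M := by positivity
  have h1 : (Real.log (1 / x) + l) / N ≤ κ := by
    rw [div_le_iff₀ hNpos]
    have := lt_of_lt_of_le hN₁ hNN1
    rw [div_lt_iff₀ hκpos] at this
    linarith
  have h2 : p * M / N * Real.log (1 / x) + p * x * M +
      (p * (l + l ^ 2) * (δ₁ * M) - l * (δ' * (p * M) - p * M / N)) =
      (p * M) * ((Real.log (1 / x) + l) / N + x + ((l + l ^ 2) * δ₁ - l * δ')) := by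
    field_simp
    ring
  rw [h2]
  have h3 : (l + l ^ 2) * δ₁ - l * δ' ≤ -(4 * κ) := by
    have : l ^ 2 * δ₁ ≤ l * ((δ' - δ₁) / 2) := by
      have := mul_le_mul_of_nonneg_left hlδ hlpos.le
      nlinarith
    rw [hκ]
    nlinarith
  nlinarith

theorem some_of_sparse {d : ℕ} (hd : 1 ≤ d) {δ : ℝ} (h : Sparse d δ) : SomeSparse d δ := by
  intro δ' hδ K
  obtain ⟨c, hc, hN⟩ := h δ' hδ
  obtain ⟨N₀, hN₀⟩ := hN 0
  obtain ⟨N₁, hN₁⟩ := exists_nat_gt (max K (Real.log 2 / c))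
  refine ⟨max N₀ N₁, 1, zero_le_one, le_rfl, ?_, ?_⟩
  · have h1 := pow_large d hd (max N₀ N₁)
    have h2 : (N₁ : ℝ) ≤ (max N₀ N₁ : ℕ) := by exact_mod_cast le_max_right _ _
    have h3 := (le_max_left K (Real.log 2 / c)).trans hN₁.le
    rw [one_mul]
    exact h3.trans (h2.trans h1)
  · refine (hN₀ _ (le_max_left _ _) 1 (by simp) le_rfl).trans ?_
    have h1 := pow_large d hd (max N₀ N₁)
    have h2 : (N₁ : ℝ) ≤ (max N₀ N₁ : ℕ) := by exact_mod_cast le_max_right _ _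
    have h3 := (le_max_right K (Real.log 2 / c)).trans hN₁.le
    have h4 : Real.log 2 ≤ c * (1 * 2 ^ ((max N₀ N₁) ^ d)) := by
      have := h3.trans (h2.trans h1)
      rw [div_le_iff₀ hc] at this
      linarith
    calc Real.exp (-(c * (1 * 2 ^ ((max N₀ N₁) ^ d)))) ≤ Real.exp (-(Real.log 2)) :=
          Real.exp_le_exp.2 (by linarith)
      _ = 1 / 2 := by rw [Real.exp_neg, Real.exp_log (by norm_num)]; norm_num

theorem one_of_some {d : ℕ} {δ : ℝ} (hδ0 : 0 ≤ δ) (h : SomeSparse d δ) : OneSize d δ := by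
  classical
  by_contra hcon
  unfold OneSize at hcon
  push Not at hcon
  obtain ⟨δ₁, hδ₁, hcon⟩ := hcon
  set δ' : ℝ := (δ + δ₁) / 2 with hδ'
  have hδδ' : δ < δ' := by linarith
  have hgap : 0 < δ₁ - δ' := by linarith
  set l : ℝ := (δ₁ - δ') / (2 * (δ₁ + 1)) with hl
  have hδ₁0 : 0 < δ₁ := by linarith
  have hlpos : 0 < l := div_pos hgap (by positivity)
  have hl1 : l ≤ 1 := by
    rw [hl, div_le_one (by positivity)]
    linarith
  have hlδ : l * δ₁ ≤ (δ₁ - δ') / 2 := by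
    rw [hl, div_mul_eq_mul_div, div_le_iff₀ (by positivity)]
    nlinarith
  set κ : ℝ := l * (δ₁ - δ') / 2 with hκ
  have hκpos : 0 < κ := by positivity
  obtain ⟨N, p, hp0, hp1, hK, hprob⟩ := h δ' hδδ' (1 / κ)
  obtain ⟨S, hS, hg⟩ := hcon N
  set M : ℝ := 2 ^ (N ^ d) with hM
  have hlow := lower (V := Finset (Fin d → Fin N)) S (p := p) (l := l) (a := δ' * (p * M))
    hp0 hp1 hlpos.le hl1
  have h1 : Real.exp (l * (δ' * (p * M)) - p * (l - l ^ 2) * S.card) < 1 / 2 := by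
    have e1 : p * (l - l ^ 2) * (δ₁ * M) ≤ p * (l - l ^ 2) * S.card := by
      have : 0 ≤ l - l ^ 2 := by nlinarith
      gcongr
    have e2 : l * (δ' * (p * M)) - p * (l - l ^ 2) * S.card ≤ -(κ * (p * M)) := by
      have e3 : l * (δ' * (p * M)) - p * (l - l ^ 2) * (δ₁ * M) =
          (p * M) * (l * δ' - l * δ₁ + l * (l * δ₁)) := by ring
      have e4 : l * δ' - l * δ₁ + l * (l * δ₁) ≤ -κ := by
        have := mul_le_mul_of_nonneg_left hlδ hlpos.le
        rw [hκ]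
        nlinarith
      have hpM : 0 ≤ p * M := by positivity
      nlinarith
    have e5 : 1 ≤ κ * (p * M) := by
      rw [div_le_iff₀ hκpos] at hK
      linarith
    calc Real.exp (l * (δ' * (p * M)) - p * (l - l ^ 2) * S.card) ≤ Real.exp (-1) :=
          Real.exp_le_exp.2 (by linarith)
      _ < 1 / 2 := by
          rw [Real.exp_neg, ← one_div]
          apply one_div_lt_one_div_of_lt (by norm_num)
          have := Real.exp_one_gt_d9
          linarith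
  have h2 : rp p (fun R : Finset (Finset (Fin d → Fin N)) =>
      ¬ (((R ∩ S).card : ℝ) < δ' * (p * M))) ≤ probFree d N p (δ' * (p * M)) := by
    rw [probFree_eq]
    apply rp_mono hp0 hp1
    intro R hR
    refine ⟨R ∩ S, inter_subset_left, fun hg' => hg ?_, not_lt.1 hR⟩
    obtain ⟨A, hA, γ, h1, h2, h3⟩ := hg'
    exact ⟨A, (mem_inter.1 hA).2, γ, h1, h2, (mem_inter.1 h3).2⟩
  rw [rp_not] at h2
  linarith

end Pool.Agent.R535.SP
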